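import Mathlib

namespace Pool.Agent.MP_f363fd_co

/-- The edge boundary `∂A`: the edges with one endpoint in `A` and the other outside `A`. -/
def edgeBoundary {V : Type} (Γ : SimpleGraph V) (A : Set V) : Set (Sym2 V) :=
  {e | e ∈ Γ.edgeSet ∧ ∃ x ∈ A, ∃ y ∉ A, e = s(x, y)}

/-- The `n`-way isoperimetric constant. A partition of `V` into `n` non-empty parts
`A_1, …, A_n` is given by a surjection `f : V → Fin n`, the parts being the fibres of `f`. -/
noncomputable def multiwayConst {V : Type} (Γ : SimpleGraph V) (n : ℕ) : ℝ :=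
  ⨅ f : {f : V → Fin n // Function.Surjective f},
    ⨆ i : Fin n, ((edgeBoundary Γ (f.1 ⁻¹' {i})).ncard : ℝ) / ((f.1 ⁻¹' {i}).ncard : ℝ)

/-- The automorphism group acts transitively on the vertices. -/
def IsVertexTransitive {V : Type} (Γ : SimpleGraph V) : Prop :=
  ∀ x y : V, ∃ g : Γ ≃g Γ, g x = y

/-- The action of the automorphism group has a system of imprimitivity of size `n`: a partition
into `n` non-empty blocks such that every automorphism maps each block onto some block. -/
def HasImprimitivitySystem {V : Type} (Γ : SimpleGraph V) (n : ℕ) : Prop :=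
  ∃ f : V → Fin n, Function.Surjective f ∧
    ∀ (g : Γ ≃g Γ) (i : Fin n), ∃ j : Fin n, g '' (f ⁻¹' {i}) = f ⁻¹' {j}

end Pool.Agent.MP_f363fd_co
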